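import Pool.Agent.U378.TM.RM.Tab
import Pool.Agent.U378.TM.Bm

/-! Checks of the leaves. -/

set_option autoImplicit false
set_option maxRecDepth 100000

namespace Pool.Agent.U378.TM.RM

open Pool.Agent.U378.TM

theorem lf9 : nestP 9 Bm.b9 (leafB TY PA T X) = true := by decide +kernel

theorem lf10 : nestP 10 Bm.b10 (leafB TY PA T X) = true := by decide +kernel

end Pool.Agent.U378.TM.RM
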